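import Mathlib
import Pool.Agent.H45.AD.FinA

/-!
# `S`-units and the class numbers of rings of `S`-integers of real quadratic fields

Let `s` be a natural number and `0 < e < 1/2`. There are `c > 0` and `C` such that for all large `N` and all
`1 ≤ A ≤ (log N) ^ (1/2 - e)` all but at most `N ^ (1 - c / A ^ 2)` of the squarefree `d ∈ (N, 2N]` have
the following property. Let `S` be any set of at most `s` odd primes `p ≤ N ^ (c / A ^ 2)` which split in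
`ℚ(√d)`. If `y ≠ 0` and the norm `x ^ 2 - d y ^ 2` is `a b` where `|a| ≤ N ^ (c / A ^ 2)` and all the prime
factors of `b` are in `S`, then `|x| + |y| √d > N ^ A`. The class number of the ring of `S`-integers of
`ℚ(√d)` is at most `(C √d / A) ∏ (log p / (A log N))`, the product over `p ∈ S`.
-/

set_option autoImplicit false

namespace Pool.Agent.Results.MP_321647_nt.SUnits

open NumberField

/-- The class number of the ring of `S`-integers of a number field `K`: the index of the subgroup of the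
class group generated by the classes of the prime ideals which contain a number `p ∈ S`. -/
noncomputable def hS (K : Type) [Field K] [NumberField K] (S : Finset ℕ) : ℕ :=
  (Subgroup.closure {c : ClassGroup (𝓞 K) | ∃ P : nonZeroDivisors (Ideal (𝓞 K)),
    (P : Ideal (𝓞 K)).IsPrime ∧ (∃ p ∈ S, ((p : ℕ) : 𝓞 K) ∈ (P : Ideal (𝓞 K))) ∧
    c = ClassGroup.mk0 P}).index

/-- The class number of the ring of `S`-integers of the field `ℚ(√d)` (a subfield of the real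
numbers). -/
noncomputable def classNumber (d : ℕ) (S : Finset ℕ) : ℕ :=
  hS (IntermediateField.adjoin ℚ {√(d : ℝ)}) S

/-- The integer `n` is `a b` where `|a| ≤ Z` and `b` is a positive integer all whose prime factors are
in `S`. -/
def AlmostSUnit (S : Finset ℕ) (Z : ℝ) (n : ℤ) : Prop :=
  ∃ a b : ℤ, n = a * b ∧ |(a : ℝ)| ≤ Z ∧ 0 < b ∧ ∀ p : ℕ, p.Prime → (p : ℤ) ∣ b → p ∈ S

/-- For almost all `d`: for all sets `S` of at most `s` small split primes, elements whose norm is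
composed of primes of `S` up to a small factor are large, and the class number of the ring of
`S`-integers is small. -/
theorem result : ∀ (s : ℕ) (e : ℝ), 0 < e → e < 1 / 2 → ∃ c C : ℝ, 0 < c ∧ ∃ N₀ : ℕ, ∀ N ≥ N₀,
    ∀ A : ℝ, 1 ≤ A → A ≤ Real.log N ^ (1 / 2 - e) →
    ∃ E : Finset ℕ, (E.card : ℝ) ≤ (N : ℝ) ^ (1 - c / A ^ 2) ∧
    ∀ d : ℕ, N < d → d ≤ 2 * N → Squarefree d → d ∉ E → ∀ S : Finset ℕ, S.card ≤ s →
      (∀ p ∈ S, p.Prime ∧ p ≠ 2 ∧ ¬ p ∣ d ∧ IsSquare (d : ZMod p) ∧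
        (p : ℝ) ≤ (N : ℝ) ^ (c / A ^ 2)) →
      (∀ x y : ℤ, y ≠ 0 → AlmostSUnit S ((N : ℝ) ^ (c / A ^ 2)) (x ^ 2 - d * y ^ 2) →
        (N : ℝ) ^ A < |(x : ℝ)| + |(y : ℝ)| * √(d : ℝ)) ∧
      (classNumber d S : ℝ) ≤ C * √(d : ℝ) / A * ∏ p ∈ S, (Real.log p / (A * Real.log N)) := by
  classical
  intro s e he0 he1
  obtain ⟨c, C, hc, N₀, hN₀⟩ := Pool.Agent.H45.AD.all_T2 s e he0 he1.le
  refine ⟨c, C, hc, N₀, fun N hN A hA hAN => ?_⟩
  have hmain := hN₀ N hN A hA hAN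
  have hfin : {d : ℕ | N < d ∧ d ≤ 2 * N ∧ Squarefree d ∧ ∃ S : Finset ℕ, S.card ≤ s ∧
        S ⊆ Pool.Agent.H45.AD.spl d ⌊(N : ℝ) ^ (c / A ^ 2)⌋₊ ∧
        ((∃ x y : ℤ, 0 ≤ x ∧ 1 ≤ y ∧
          Pool.Agent.H45.AD.NS S ((N : ℝ) ^ (c / A ^ 2)) (x ^ 2 - d * y ^ 2) ∧
          (x : ℝ) + y * √(d : ℝ) ≤ (N : ℝ) ^ A) ∨
        C * √(d : ℝ) / A * ∏ p ∈ S, (Real.log p / (A * Real.log N)) <
          ((Pool.Agent.H45.AD.GS d S).index : ℝ))}.Finite := by
    refine (Set.finite_Icc N (2 * N)).subset ?_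
    rintro d ⟨h1, h2, -⟩
    exact ⟨h1.le, h2⟩
  refine ⟨hfin.toFinset, ?_, ?_⟩
  · rw [← Set.ncard_eq_toFinset_card _ hfin]
    exact hmain
  intro d hd1 hd2 hd3 hdE S hS hp
  rw [Set.Finite.mem_toFinset] at hdE
  have hsub : S ⊆ Pool.Agent.H45.AD.spl d ⌊(N : ℝ) ^ (c / A ^ 2)⌋₊ := by
    intro p hpS
    obtain ⟨h1, h2, h3, h4, h5⟩ := hp p hpS
    unfold Pool.Agent.H45.AD.spl
    rw [Finset.mem_filter, Finset.mem_range, Nat.lt_succ_iff]
    exact ⟨Nat.le_floor h5, h1, h2, h3, h4⟩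
  have hnot : ¬ ((∃ x y : ℤ, 0 ≤ x ∧ 1 ≤ y ∧
          Pool.Agent.H45.AD.NS S ((N : ℝ) ^ (c / A ^ 2)) (x ^ 2 - d * y ^ 2) ∧
          (x : ℝ) + y * √(d : ℝ) ≤ (N : ℝ) ^ A) ∨
        C * √(d : ℝ) / A * ∏ p ∈ S, (Real.log p / (A * Real.log N)) <
          ((Pool.Agent.H45.AD.GS d S).index : ℝ)) := fun h =>
    hdE ⟨hd1, hd2, hd3, S, hS, hsub, h⟩
  rw [not_or] at hnot
  refine ⟨fun x y hy hn => ?_, not_lt.1 hnot.2⟩
  by_contra hcon
  rw [not_lt] at hcon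
  apply hnot.1
  refine ⟨|x|, |y|, abs_nonneg x, Int.one_le_abs hy, ?_, ?_⟩
  · rw [sq_abs, sq_abs]
    exact hn
  · push_cast
    exact hcon

end Pool.Agent.Results.MP_321647_nt.SUnits
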