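import Pool.Agent.H52.AP.All

/-!
# Class groups of real quadratic fields in short intervals and arithmetic progressions

Let `a > 2`, `a / (2 (a - 1)) < θ ≤ 1` (so every `θ > 1/2` is allowed for large `a`) and `u > 2 / a`.  The
modulus `m` is `1` or a prime `≥ x ^ u`, and `b` is any residue class prime to `m`.  For all large `x`, ALL
such `m` and `b`, ALL `H` with `m x ^ θ ≤ H ≤ x` and EVERY set `Q` of primes, all but at most
`τ (H / m) ∏_{q ∈ Q, q ≤ x} (1 - 1/q)` of the squarefree integers `d ≡ b (mod m)` in `(x, x + H]` without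
prime factor in `Q` have the following property `Good a ε d`.  Let `K` be the field of the square root of
`d`, `h` its class number, and `B = (log d)^a`, `n = log d / log log d`.

* (equidistribution) For suitable `y` and `k` with `2y ≤ B` and `2k ≤ n`, the ideals whose norm is a
  product of `k` distinct primes of `(y, 2y]` are equidistributed in the class group up to `ε`, in mean
  square.
* (covering) Every nonzero ideal is `x A`, where `A` is a product of at most `n` prime ideals of norm at
  most `B` and `x` is totally positive with `log (σ x / τ x)` within `2` of any prescribed real number.  In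
  particular these prime ideals generate the class group (and the narrow class group): index exactly one.
* (units) Every `B`-unit of `K` is a product of powers of the small ones, and every totally positive
  `B`-unit is a product of powers of totally positive small ones.
* (test) The ring of integers is a unique factorisation domain if and only if all prime ideals of norm at
  most `B` are principal, and if and only if each of them is generated by a product of powers of small
  elements.

For `Q` the set of all primes up to `x` this gives: all but at most `τ H / (m log x)` of the primes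
`p ≡ b (mod m)` in `(x, x + H]` have the property.

The mean value theorem with sieve weights for `d` in `(X, (1 + η) X]` is the work of the library project
`H38R2`, the passage to the Arakelov class group of the library project `H951R5/AR`, the sieve weights for an
arbitrary set of primes are from the library file `TH866.SR`.  New here are the decoupling of the length of
the interval from its position, products of norm close to the length of the interval
(`Pool/Agent/H52/W`), and the large moduli, by a bilinear estimate for the quadratic character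
(`Pool/Agent/H52/AP`).
-/

set_option autoImplicit false

namespace Pool.Agent.Results.MP_321647_nt.ShortIntervals

open Finset NumberField
open scoped Classical

/-- The number of ideals of the ring of integers of `K` of norm `n` and of class `C`. -/
noncomputable def idealCount (K : Type) [Field K] [NumberField K] (n : ℕ)
    (C : ClassGroup (𝓞 K)) : ℕ :=
  Nat.card {I : nonZeroDivisors (Ideal (𝓞 K)) //
    Ideal.absNorm (I : Ideal (𝓞 K)) = n ∧ ClassGroup.mk0 I = C}

/-- The number of ideals of the ring of integers of `K` that have class `C` and whose norm is a product of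
`k` distinct primes of the interval `(y, 2y]`. -/
noncomputable def count (K : Type) [Field K] [NumberField K] (y k : ℕ)
    (C : ClassGroup (𝓞 K)) : ℕ :=
  ∑ s ∈ ((Finset.Ioc y (2 * y)).filter Nat.Prime).powersetCard k, idealCount K (∏ p ∈ s, p) C

/-- The number of all ideals whose norm is a product of `k` distinct primes of `(y, 2y]`. -/
noncomputable def total (K : Type) [Field K] [NumberField K] (y k : ℕ) : ℕ :=
  ∑ C : ClassGroup (𝓞 K), count K y k C

/-- The class number. -/
noncomputable def h (K : Type) [Field K] [NumberField K] : ℕ := Nat.card (ClassGroup (𝓞 K))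

/-- The mean square deviation of the distribution of these ideals among the `h` ideal classes from the
uniform distribution. -/
noncomputable def deviation (K : Type) [Field K] [NumberField K] (y k : ℕ) : ℝ :=
  (∑ C : ClassGroup (𝓞 K), ((count K y k C : ℝ) / (total K y k : ℝ) - 1 / h K) ^ 2) / h K

/-- These ideals exist, and the mean square deviation is at most `ε` times the square of the mean
`1 / h`. -/
def Equidistributed (K : Type) [Field K] [NumberField K] (y k : ℕ) (ε : ℝ) : Prop :=
  0 < total K y k ∧ deviation K y k ≤ ε * (1 / h K) ^ 2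

/-- The nonzero prime ideals of `K` of norm at most `B`. -/
def smallPrimes (K : Type) [Field K] [NumberField K] (B : ℝ) :
    Set (nonZeroDivisors (Ideal (𝓞 K))) :=
  {P | (P : Ideal (𝓞 K)).IsPrime ∧ (Ideal.absNorm (P : Ideal (𝓞 K)) : ℝ) ≤ B}

/-- The prime ideals of norm at most `B` generate the class group. -/
def Generate (K : Type) [Field K] [NumberField K] (B : ℝ) : Prop :=
  Subgroup.closure ((fun P => ClassGroup.mk0 P) '' smallPrimes K B) = ⊤

/-- The ideal `I` is a product of at most `n` prime ideals of norm at most `B`, repetitions allowed. -/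
def SmallProd (K : Type) [Field K] [NumberField K] (B n : ℝ) (I : Ideal (𝓞 K)) : Prop :=
  ∃ L : Multiset (Ideal (𝓞 K)),
    (∀ P ∈ L, P.IsPrime ∧ P ≠ ⊥ ∧ ((Ideal.absNorm P : ℕ) : ℝ) ≤ B) ∧
    (L.card : ℝ) ≤ n ∧ L.prod = I

/-- `x` is totally positive (`σ`, `τ` are the two real embeddings). -/
def TotPos {K : Type} [Field K] (σ τ : K →+* ℝ) (x : K) : Prop := 0 < σ x ∧ 0 < τ x

/-- The fractional ideal `(x)` is the quotient of the ideals `A` and `A'`. -/
def IsQuotient (K : Type) [Field K] [NumberField K] (x : K) (A A' : Ideal (𝓞 K)) : Prop :=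
  FractionalIdeal.spanSingleton (nonZeroDivisors (𝓞 K)) x *
    (A' : FractionalIdeal (nonZeroDivisors (𝓞 K)) K) = A

/-- Every nonzero ideal `I` is `x A`, with `A` a product of at most `n` prime ideals of norm at most `B`,
with `x` totally positive and with `log (σ x / τ x)` within `2` of any given real number `t`. -/
def Covers (K : Type) [Field K] [NumberField K] (σ τ : K →+* ℝ) (B n : ℝ) : Prop :=
  ∀ I : Ideal (𝓞 K), I ≠ ⊥ → ∀ t : ℝ, ∃ (A : Ideal (𝓞 K)) (x : K), SmallProd K B n A ∧
    TotPos σ τ x ∧ IsQuotient K x I A ∧ |Real.log (σ x / τ x) - t| ≤ 2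

/-- The small elements: `(x)` is a quotient of two products of at most `n` prime ideals of norm at most
`B`, and `|log |σ x / τ x|| ≤ 5`. -/
def Small (K : Type) [Field K] [NumberField K] (σ τ : K →+* ℝ) (B n : ℝ) : Set Kˣ :=
  {x : Kˣ | (∃ A A' : Ideal (𝓞 K), SmallProd K B n A ∧ SmallProd K B n A' ∧
    IsQuotient K (x : K) A A') ∧ abs (Real.log (abs (σ (x : K) / τ (x : K)))) ≤ 5}

/-- The `B`-units: `(u)` is a quotient of two products of prime ideals of norm at most `B`. -/
def SUnit (K : Type) [Field K] [NumberField K] (B : ℝ) : Set Kˣ :=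
  {u : Kˣ | ∃ (m : ℝ) (A A' : Ideal (𝓞 K)), SmallProd K B m A ∧ SmallProd K B m A' ∧
    IsQuotient K (u : K) A A'}

/-- Every `B`-unit is a product of powers of small elements, and every totally positive `B`-unit is a
product of powers of totally positive small elements. -/
def Units (K : Type) [Field K] [NumberField K] (σ τ : K →+* ℝ) (B n : ℝ) : Prop :=
  ∀ u ∈ SUnit K B, u ∈ Subgroup.closure (Small K σ τ B n) ∧
    (TotPos σ τ (u : K) →
      u ∈ Subgroup.closure {x : Kˣ | x ∈ Small K σ τ B n ∧ TotPos σ τ (x : K)})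

/-- The ring of integers is a unique factorisation domain if and only if all prime ideals of norm at most
`B` are principal. -/
def Test (K : Type) [Field K] [NumberField K] (B : ℝ) : Prop :=
  UniqueFactorizationMonoid (𝓞 K) ↔ ∀ P ∈ smallPrimes K B, (P : Ideal (𝓞 K)).IsPrincipal

/-- The ring of integers is a unique factorisation domain if and only if every prime ideal of norm at most
`B` is generated by a product of powers of small elements. -/
def Certificate (K : Type) [Field K] [NumberField K] (σ τ : K →+* ℝ) (B n : ℝ) : Prop :=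
  UniqueFactorizationMonoid (𝓞 K) ↔
    ∀ P : Ideal (𝓞 K), P.IsPrime → P ≠ ⊥ → ((Ideal.absNorm P : ℕ) : ℝ) ≤ B →
      ∃ x ∈ Subgroup.closure (Small K σ τ B n), IsQuotient K ((x : Kˣ) : K) P ⊤

/-- The bound `(log d) ^ a` for the primes. -/
noncomputable def bound (a : ℝ) (d : ℕ) : ℝ := (Real.log d) ^ a

/-- The bound `log d / log log d` for the lengths of the products. -/
noncomputable def len (d : ℕ) : ℝ := Real.log d / Real.log (Real.log d)

/-- The property of the theorem for the field `K` of the square root of `d`: the part on the class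
group. -/
def GoodClass (K : Type) [Field K] [NumberField K] (a ε : ℝ) (d : ℕ) : Prop :=
  (∃ y k : ℕ, 2 * (y : ℝ) ≤ bound a d ∧ 2 * (k : ℝ) ≤ len d ∧ Equidistributed K y k ε) ∧
    Generate K (bound a d) ∧ Test K (bound a d)

/-- The part on the elements, for the two real embeddings. -/
def GoodUnits (K : Type) [Field K] [NumberField K] (a : ℝ) (d : ℕ) : Prop :=
  ∀ σ τ : K →+* ℝ, σ ≠ τ → Covers K σ τ (bound a d) (len d) ∧
    Units K σ τ (bound a d) (1 + len d) ∧ Certificate K σ τ (bound a d) (1 + len d)

/-- The property of the theorem: all quadratic fields that contain a square root of `d` are good. -/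
def Good (a ε : ℝ) (d : ℕ) : Prop :=
  ∀ (K : Type) [Field K] [NumberField K], Module.finrank ℚ K = 2 →
    (∃ x : K, x ^ 2 = (d : K)) → GoodClass K a ε d ∧ GoodUnits K a d

/-- The admissible moduli: `1` and the primes `≥ x ^ u`. -/
def Modulus (x : ℕ) (u : ℝ) (m : ℕ) : Prop := m = 1 ∨ (m.Prime ∧ (x : ℝ) ^ u ≤ m)

/-- The number of squarefree integers `≡ b (mod m)` in `(x, x + H]` without prime factor in `Q` that do
not have the property `G`. -/
noncomputable def exceptions (x H m b : ℕ) (Q : Set ℕ) (G : ℕ → Prop) : ℕ :=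
  ((Finset.Ioc x (x + H)).filter (fun d => d ≡ b [MOD m] ∧ Squarefree d ∧
    (∀ q ∈ Q, q.Prime → ¬ q ∣ d) ∧ ¬ G d)).card

/-- The number of primes `≡ b (mod m)` in `(x, x + H]` that do not have the property `G`. -/
noncomputable def primeExceptions (x H m b : ℕ) (G : ℕ → Prop) : ℕ :=
  ((Finset.Ioc x (x + H)).filter (fun p => p ≡ b [MOD m] ∧ p.Prime ∧ ¬ G p)).card

/-- The product of `1 - 1/q` over the primes `q ≤ x` of the set `Q`. -/
noncomputable def density (x : ℕ) (Q : Set ℕ) : ℝ :=
  ∏ q ∈ (Finset.Icc 2 x).filter (fun q => q.Prime ∧ q ∈ Q), (1 - 1 / (q : ℝ))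

theorem closure_of {K : Type} [Field K] [NumberField K] {B n : ℝ}
    (h : Pool.Agent.H52.W.CG3.GenBy K B n) : Generate K B := by
  unfold Generate
  rw [Subgroup.eq_top_iff']
  intro C
  obtain ⟨L, h1, -, rfl⟩ := h C
  refine Subgroup.multiset_prod_mem _ _ ?_
  intro c hc
  obtain ⟨P, hP, rfl⟩ := Multiset.mem_map.1 hc
  exact Subgroup.subset_closure ⟨P, h1 P hP, rfl⟩

theorem ufd_of {K : Type} [Field K] [NumberField K] {B n : ℝ}
    (h : Pool.Agent.H52.W.CG3.GenBy K B n) : Test K B := by
  constructor
  · intro hU P _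
    have hPID : IsPrincipalIdealRing (𝓞 K) :=
      IsPrincipalIdealRing.of_isDedekindDomain_of_uniqueFactorizationMonoid (𝓞 K)
    exact hPID.principal _
  · intro hP
    have h1 : ∀ C : ClassGroup (𝓞 K), C = 1 := by
      intro C
      obtain ⟨L, h1, -, rfl⟩ := h C
      apply Multiset.prod_eq_one
      intro c hc
      obtain ⟨P, hPL, rfl⟩ := Multiset.mem_map.1 hc
      exact (ClassGroup.mk0_eq_one_iff P.2).2 (hP P (h1 P hPL))
    have h2 : classNumber K = 1 := by
      unfold classNumber
      rw [Fintype.card_eq_one_iff]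
      exact ⟨1, h1⟩
    have h3 : IsPrincipalIdealRing (𝓞 K) := classNumber_eq_one_iff.1 h2
    exact PrincipalIdealRing.to_uniqueFactorizationMonoid

theorem good_of (a ε : ℝ) (d : ℕ) (h : Pool.Agent.H52.W.CG3.GoodE a ε d ∧
    Pool.Agent.H951R5.AR.GoodAR a d) : Good a ε d := by
  intro K _ _ hK hx
  obtain ⟨⟨y, k, h1, h2, h3⟩, h4⟩ := h.1 K hK hx
  refine ⟨⟨⟨y, k, h1, h2, h3⟩, closure_of h4, ufd_of h4⟩, ?_⟩
  intro σ τ hne
  obtain ⟨h5, h6, h7⟩ := h.2 K hK hx σ τ hne
  refine ⟨h5, h6, h7.trans ?_⟩
  have htop : ((⊤ : Ideal (𝓞 K)) : FractionalIdeal (nonZeroDivisors (𝓞 K)) K) = 1 :=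
    FractionalIdeal.coeIdeal_top _
  refine forall_congr' fun P => imp_congr_right fun _ => imp_congr_right fun _ =>
    imp_congr_right fun _ => ?_
  unfold IsQuotient
  simp only [htop, mul_one]
  exact Iff.rfl

theorem result (a θ u ε τ : ℝ) (ha : 2 < a) (hθ : a / (2 * (a - 1)) < θ) (hθ1 : θ ≤ 1)
    (hu : 2 / a < u) (hε : 0 < ε) (hτ : 0 < τ) :
    ∃ x₀ : ℕ, ∀ x ≥ x₀, ∀ m b : ℕ, Modulus x u m → b.Coprime m → ∀ H : ℕ,
      (m : ℝ) * (x : ℝ) ^ θ ≤ H → H ≤ x →
      (∀ Q : Set ℕ, (exceptions x H m b Q (Good a ε) : ℝ) ≤ τ * (H / m) * density x Q) ∧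
      (primeExceptions x H m b (Good a ε) : ℝ) ≤ τ * (H / m) / Real.log x := by
  obtain ⟨x0, hx0⟩ := Pool.Agent.H52.W.SH.final a θ ε τ ha hθ hθ1 hε hτ
  obtain ⟨x1, hx1⟩ := Pool.Agent.H52.AP.final a θ u ε τ ha hθ hθ1 hu hε hτ
  refine ⟨max (max x0 x1) 2, fun x hx m b hm hb H h1 h2 => ?_⟩
  have hxx : x0 ≤ x := ((le_max_left _ _).trans (le_max_left _ _)).trans hx
  have hxx1 : x1 ≤ x := ((le_max_right _ _).trans (le_max_left _ _)).trans hx
  have hx2 : 2 ≤ x := (le_max_right _ _).trans hx
  have hmpos : 0 < m := by
    rcases hm with rfl | ⟨hm, -⟩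
    · exact one_pos
    · exact hm.pos
  have main : ∀ Q : Set ℕ, (exceptions x H m b Q (Good a ε) : ℝ) ≤
      τ * (H / m) * density x Q := by
    intro Q
    rcases hm with rfl | ⟨hm, hmx⟩
    · have h1' : (x : ℝ) ^ θ ≤ H := by simpa using h1
      refine le_trans ?_ ((hx0 x hxx H h1' h2 Q).trans (le_of_eq ?_))
      · have hsub : ((Finset.Ioc x (x + H)).filter (fun d => d ≡ b [MOD 1] ∧ Squarefree d ∧
            (∀ q ∈ Q, q.Prime → ¬ q ∣ d) ∧ ¬ Good a ε d)) ⊆
            ((Finset.Ioc x (x + H)).filter (fun d => Squarefree d ∧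
            (∀ q ∈ Q, q.Prime → ¬ q ∣ d) ∧ ¬ (Pool.Agent.H52.W.CG3.GoodE a ε d ∧
              Pool.Agent.H951R5.AR.GoodAR a d))) := by
          intro d hd
          rw [Finset.mem_filter] at hd ⊢
          exact ⟨hd.1, hd.2.2.1, hd.2.2.2.1, fun hg => hd.2.2.2.2 (good_of a ε d hg)⟩
        unfold exceptions
        exact_mod_cast Finset.card_le_card hsub
      · unfold density
        simp
    · have hbm : 0 < b % m := by
        rw [Nat.pos_iff_ne_zero]
        intro h
        have h3 : m ∣ b := Nat.dvd_of_mod_eq_zero h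
        have h4 := Nat.Coprime.eq_one_of_dvd hb.symm h3
        exact hm.one_lt.ne' h4
      refine le_trans ?_ (hx1 x hxx1 m (b % m) hm hbm (Nat.mod_lt _ hm.pos) hmx H h1 h2 Q)
      have hsub : ((Finset.Ioc x (x + H)).filter (fun d => d ≡ b [MOD m] ∧ Squarefree d ∧
          (∀ q ∈ Q, q.Prime → ¬ q ∣ d) ∧ ¬ Good a ε d)) ⊆
          ((Finset.Ioc x (x + H)).filter (fun d => d % m = b % m ∧ Squarefree d ∧
          (∀ q ∈ Q, q.Prime → ¬ q ∣ d) ∧ ¬ (Pool.Agent.H52.W.CG3.GoodE a ε d ∧
              Pool.Agent.H951R5.AR.GoodAR a d))) := by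
        intro d hd
        rw [Finset.mem_filter] at hd ⊢
        exact ⟨hd.1, hd.2.1, hd.2.2.1, hd.2.2.2.1, fun hg => hd.2.2.2.2 (good_of a ε d hg)⟩
      unfold exceptions
      exact_mod_cast Finset.card_le_card hsub
  refine ⟨main, ?_⟩
  have h3 := main (Set.Iic x)
  have h4 : primeExceptions x H m b (Good a ε) ≤ exceptions x H m b (Set.Iic x) (Good a ε) := by
    apply Finset.card_le_card
    intro p hp
    rw [Finset.mem_filter, Finset.mem_Ioc] at hp
    rw [Finset.mem_filter, Finset.mem_Ioc]
    refine ⟨hp.1, hp.2.1, hp.2.2.1.squarefree, ?_, hp.2.2.2⟩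
    intro q hq hqp hqd
    have h5 : q = p := (Nat.prime_dvd_prime_iff_eq hqp hp.2.2.1).1 hqd
    have h6 : q ≤ x := hq
    omega
  have h6 := (@Pool.Agent.H52.W.SH.all ⟨1, one_pos, le_rfl⟩).2.2.2.1 x hx2
  have h7 : (primeExceptions x H m b (Good a ε) : ℝ) ≤
      exceptions x H m b (Set.Iic x) (Good a ε) := by
    exact_mod_cast h4
  have h8 : density x (Set.Iic x) = ∏ p ∈ (Finset.Icc 2 x).filter Nat.Prime, (1 - (1 : ℝ) / p) := by
    unfold density
    refine Finset.prod_congr ?_ (fun _ _ => rfl)
    ext q
    simp only [Finset.mem_filter, Finset.mem_Icc, Set.mem_Iic]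
    tauto
  rw [h8] at h3
  calc (primeExceptions x H m b (Good a ε) : ℝ) ≤ exceptions x H m b (Set.Iic x) (Good a ε) := h7
    _ ≤ _ := h3
    _ ≤ τ * (H / m) * (1 / Real.log x) := mul_le_mul_of_nonneg_left h6 (by positivity)
    _ = _ := by ring

end Pool.Agent.Results.MP_321647_nt.ShortIntervals
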