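import Mathlib
import Pool.Agent.H45.AD.FinB
import Pool.Agent.H45.AD.T7

/-!
# Torsion in the class groups of real quadratic fields

(1) Let `e, ε > 0`. There is `c > 0` such that for all large `N` and all `5 ≤ k ≤ (log N) ^ (3/2 - e)` the sum of
`#Cl(ℚ(√d))[k]` over the squarefree `d ∈ (N, 2N]` is at most `N ^ (3/2 - s)` where `s` is the larger of
`3 / (2 k + 2) - ε` and `c / k ^ (2/3)`.

(2) Let `0 < e < 1/2`. There is `c > 0` such that for all large `N` and all `1 ≤ A ≤ (log N) ^ (1/2 - e)` all but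
at most `N ^ (1 - c / A ^ 2)` of the squarefree `d ∈ (N, 2N]` satisfy `#Cl(ℚ(√d))[k] N ^ (c / A ^ 2) ≤ h(d) R(d)` for
all `1 ≤ k ≤ A ^ 3`; in particular, if the class group of `ℚ(√d)` is of exponent `k ≤ A ^ 3`, then the
regulator is at least `N ^ (c / A ^ 2)`.
-/

set_option autoImplicit false

namespace Pool.Agent.Results.MP_321647_nt.Torsion

open NumberField

/-- The number of the elements `a` of the class group of the number field `K` with `a ^ k = 1`. -/
noncomputable def torsion (K : Type) [Field K] [NumberField K] (k : ℕ) : ℕ :=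
  Nat.card {a : ClassGroup (𝓞 K) // a ^ k = 1}

/-- The number of the elements `a` of the class group of the field `ℚ(√d)` (a subfield of the real
numbers) with `a ^ k = 1`. -/
noncomputable def quadTorsion (d k : ℕ) : ℕ :=
  torsion (IntermediateField.adjoin ℚ {√(d : ℝ)}) k

/-- The class number times the regulator of the number field `K`. -/
noncomputable def classReg (K : Type) [Field K] [NumberField K] : ℝ :=
  Nat.card (ClassGroup (𝓞 K)) * Units.regulator K

/-- The class number times the regulator of the field `ℚ(√d)`. -/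
noncomputable def hR (d : ℕ) : ℝ := classReg (IntermediateField.adjoin ℚ {√(d : ℝ)})

/-- The regulator of the field `ℚ(√d)`. -/
noncomputable def R (d : ℕ) : ℝ := Units.regulator (IntermediateField.adjoin ℚ {√(d : ℝ)})

/-- The `k`-th power of each ideal class of the number field `K` is trivial. -/
def HasExponent (K : Type) [Field K] [NumberField K] (k : ℕ) : Prop :=
  ∀ a : ClassGroup (𝓞 K), a ^ k = 1

theorem of_exponent (K : Type) [Field K] [NumberField K] (k : ℕ) (h : HasExponent K k) :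
    torsion K k = Nat.card (ClassGroup (𝓞 K)) := by
  unfold torsion
  exact Nat.card_congr (Equiv.subtypeUnivEquiv h)

theorem torsion_pos (K : Type) [Field K] [NumberField K] (k : ℕ) : 0 < torsion K k := by
  unfold torsion
  haveI : Nonempty {a : ClassGroup (𝓞 K) // a ^ k = 1} := ⟨⟨1, one_pow k⟩⟩
  exact Nat.card_pos

theorem reg_bound (K : Type) [Field K] [NumberField K] (k : ℕ) (x : ℝ)
    (h : (torsion K k : ℝ) * x ≤ classReg K) (hk : HasExponent K k) : x ≤ Units.regulator K := by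
  have h1 : (0 : ℝ) < torsion K k := by exact_mod_cast torsion_pos K k
  unfold classReg at h
  rw [← of_exponent K k hk] at h
  exact le_of_mul_le_mul_left h h1

/-- The mean value of the torsion, uniformly in the exponent, and the torsion, the class number and the
regulator for almost all fields. -/
theorem result :
    (∀ e ε : ℝ, 0 < e → 0 < ε → ∃ c : ℝ, 0 < c ∧ ∃ N₀ : ℕ, ∀ N ≥ N₀, ∀ k : ℕ,
      5 ≤ k → (k : ℝ) ≤ Real.log N ^ (3 / 2 - e) →
        ∑ d ∈ (Finset.Ioc N (2 * N)).filter Squarefree, (quadTorsion d k : ℝ) ≤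
          (N : ℝ) ^ (3 / 2 - max (3 / (2 * (k : ℝ) + 2) - ε) (c / (k : ℝ) ^ ((2 : ℝ) / 3)))) ∧
    (∀ e : ℝ, 0 < e → e < 1 / 2 → ∃ c : ℝ, 0 < c ∧ ∃ N₀ : ℕ, ∀ N ≥ N₀,
      ∀ A : ℝ, 1 ≤ A → A ≤ Real.log N ^ (1 / 2 - e) →
      ∃ E : Finset ℕ, (E.card : ℝ) ≤ (N : ℝ) ^ (1 - c / A ^ 2) ∧
      ∀ d : ℕ, N < d → d ≤ 2 * N → Squarefree d → d ∉ E → ∀ k : ℕ, 1 ≤ k → (k : ℝ) ≤ A ^ 3 →
        (quadTorsion d k : ℝ) * (N : ℝ) ^ (c / A ^ 2) ≤ hR d ∧
        (HasExponent (IntermediateField.adjoin ℚ {√(d : ℝ)}) k → (N : ℝ) ^ (c / A ^ 2) ≤ R d)) := by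
  refine ⟨Pool.Agent.H45.AD.all_T6, ?_⟩
  intro e he0 he1
  obtain ⟨c, hc, N₀, hN₀⟩ := Pool.Agent.H45.AD.T7.t Pool.Agent.H45.AD.all_UN
    Pool.Agent.H45.AD.SPf.sp Pool.Agent.H14.AD.PK.t e he0 he1.le
  refine ⟨c, hc, N₀, fun N hN A hA hAN => ?_⟩
  have hmain := hN₀ N hN A hA hAN
  have hfin : {d : ℕ | N < d ∧ d ≤ 2 * N ∧ Squarefree d ∧ ∃ k : ℕ, 1 ≤ k ∧ (k : ℝ) ≤ A ^ 3 ∧
      Pool.Agent.H45.RQ.hnum d * Units.regulator (Pool.Agent.H45.RQ.QS d) <
        (Nat.card {a : ClassGroup (𝓞 (Pool.Agent.H45.RQ.QS d)) // a ^ k = 1} : ℝ) *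
          (N : ℝ) ^ (c / A ^ 2)}.Finite := by
    refine (Set.finite_Icc N (2 * N)).subset ?_
    rintro d ⟨h1, h2, -⟩
    exact ⟨h1.le, h2⟩
  refine ⟨hfin.toFinset, ?_, ?_⟩
  · rw [← Set.ncard_eq_toFinset_card _ hfin]
    exact hmain
  intro d hd1 hd2 hd3 hdE k hk1 hk2
  rw [Set.Finite.mem_toFinset] at hdE
  have hnot : ¬ (Pool.Agent.H45.RQ.hnum d * Units.regulator (Pool.Agent.H45.RQ.QS d) <
        (Nat.card {a : ClassGroup (𝓞 (Pool.Agent.H45.RQ.QS d)) // a ^ k = 1} : ℝ) *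
          (N : ℝ) ^ (c / A ^ 2)) := fun h => hdE ⟨hd1, hd2, hd3, k, hk1, hk2, h⟩
  have hle : (torsion (IntermediateField.adjoin ℚ {√(d : ℝ)}) k : ℝ) * (N : ℝ) ^ (c / A ^ 2) ≤
      classReg (IntermediateField.adjoin ℚ {√(d : ℝ)}) := not_lt.1 hnot
  exact ⟨hle, fun h => reg_bound _ k _ hle h⟩

end Pool.Agent.Results.MP_321647_nt.Torsion
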