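import Mathlib
import Pool.Agent.H45.PU.FINU

/-!
# Regulators, class numbers and small norms of the fields `ℚ(√f(n))`, uniformly in the size

Let `f` be an irreducible polynomial of odd degree with integral coefficients (`f = X` included) and
`0 < e < 1/2`. There are `c > 0` and `C` such that for all large `N` and all
`1 ≤ A ≤ (log N) ^ (1/2 - e)`: the number of `n ≤ N` for which `f(n)` is squarefree and the regulator of
`ℚ(√f(n))` is at most `A log N`, or its class number exceeds `(C / A) √f(n)`, or one of the forms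
`x ^ 2 - f(n) y ^ 2` with `1 ≤ y ≤ N ^ A` is at most `N ^ (c / A ^ 2)`, is at most `N ^ (1 - c / A ^ 2)`.
The same in intervals of length `N ^ (1 / A ^ 2)`, for polynomials with growing coefficients and for
arithmetic progressions with large moduli.
-/

set_option autoImplicit false

namespace Pool.Agent.Results.MP_321647_nt.UniformSaving

open Polynomial NumberField

/-- The regulator of the field `ℚ(√d)` (as a subfield of the real numbers). -/
noncomputable def R (d : ℕ) : ℝ := Units.regulator (IntermediateField.adjoin ℚ {√(d : ℝ)})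

/-- The class number of the field `ℚ(√d)` (as a subfield of the real numbers). -/
noncomputable def h (d : ℕ) : ℕ :=
  Nat.card (ClassGroup (𝓞 (IntermediateField.adjoin ℚ {√(d : ℝ)})))

/-- The integer `d > 1` is squarefree and exceptional: the regulator of `ℚ(√d)` is at most `A log N`, or
its class number is larger than `C √d / A`, or `x ^ 2 - d y ^ 2` is at most `N ^ (c / A ^ 2)` in absolute
value for some integers `x` and `1 ≤ y ≤ N ^ A`. -/
def Exceptional (N : ℕ) (A c C : ℝ) (d : ℤ) : Prop := 1 < d ∧ Squarefree d ∧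
  (R d.toNat ≤ A * Real.log N ∨ C * √((d.toNat : ℕ) : ℝ) / A < (h d.toNat : ℝ) ∨
    ∃ x y : ℤ, 1 ≤ y ∧ (y : ℝ) ≤ (N : ℝ) ^ A ∧
      |((x ^ 2 - d * y ^ 2 : ℤ) : ℝ)| ≤ (N : ℝ) ^ (c / A ^ 2))

theorem exc_iff (N : ℕ) (A c C : ℝ) (d : ℤ) :
    Exceptional N A c C d ↔ Pool.Agent.H45.PS.Exc N A c C d := Iff.rfl

/-- The exceptional set saves the factor `N ^ (c / A ^ 2)`, uniformly in `1 ≤ A ≤ (log N) ^ (1/2 - e)`:
in short intervals for families of polynomials, for arithmetic progressions with large moduli, and for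
all `n ≤ N` for a fixed polynomial. -/
theorem result :
    (∀ (k B : ℕ) (e : ℝ), Odd k → 0 < e → e < 1 / 2 → ∃ c C : ℝ, 0 < c ∧ ∃ N₀ : ℕ, ∀ N ≥ N₀,
      ∀ A : ℝ, 1 ≤ A → A ≤ Real.log N ^ (1 / 2 - e) → ∀ f : ℤ[X], Irreducible f →
      f.natDegree = k → 1 ≤ f.leadingCoeff → f.leadingCoeff ≤ (N : ℤ) ^ B →
      (∀ j < k, 4 * (k + 1) * |f.coeff j| ≤ f.leadingCoeff * (N : ℤ) ^ (k - j)) → ∀ H : ℕ,
      (N : ℝ) ^ (1 / A ^ 2) ≤ H → H ≤ N →
      ({n : ℕ | N < n ∧ n ≤ N + H ∧ Exceptional N A c C (f.eval (n : ℤ))}.ncard : ℝ) ≤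
        H * (N : ℝ) ^ (-(c / A ^ 2))) ∧
    (∀ (B : ℕ) (e : ℝ), 0 < e → e < 1 / 2 → ∃ c C : ℝ, 0 < c ∧ ∃ N₀ : ℕ, ∀ N ≥ N₀,
      ∀ A : ℝ, 1 ≤ A → A ≤ Real.log N ^ (1 / 2 - e) → ∀ q a : ℕ, 1 ≤ q → q ≤ N ^ B → a < q →
      Nat.Coprime a q → ∀ H : ℕ, (N : ℝ) ^ (1 / A ^ 2) ≤ H → H ≤ N →
      ({n : ℕ | N < n ∧ n ≤ N + H ∧ Exceptional N A c C ((a + q * n : ℕ) : ℤ)}.ncard : ℝ) ≤
        H * (N : ℝ) ^ (-(c / A ^ 2))) ∧
    (∀ (k : ℕ) (e : ℝ), Odd k → 0 < e → e < 1 / 2 → ∃ c C : ℝ, 0 < c ∧ ∀ f : ℤ[X],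
      Irreducible f → f.natDegree = k → 1 ≤ f.leadingCoeff → ∃ N₀ : ℕ, ∀ N ≥ N₀,
      ∀ A : ℝ, 1 ≤ A → A ≤ Real.log N ^ (1 / 2 - e) →
      ({n : ℕ | n ≤ N ∧ Exceptional N A c C (f.eval (n : ℤ))}.ncard : ℝ) ≤
        (N : ℝ) ^ (1 - c / A ^ 2)) := by
  have h1 : ∀ (k B : ℕ) (e : ℝ), Odd k → 0 < e → e < 1 / 2 → ∃ c C : ℝ, 0 < c ∧ ∃ N₀ : ℕ,
      ∀ N ≥ N₀, ∀ A : ℝ, 1 ≤ A → A ≤ Real.log N ^ (1 / 2 - e) → ∀ f : ℤ[X], Irreducible f →
      f.natDegree = k → 1 ≤ f.leadingCoeff → f.leadingCoeff ≤ (N : ℤ) ^ B →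
      (∀ j < k, 4 * (k + 1) * |f.coeff j| ≤ f.leadingCoeff * (N : ℤ) ^ (k - j)) → ∀ H : ℕ,
      (N : ℝ) ^ (1 / A ^ 2) ≤ H → H ≤ N →
      ({n : ℕ | N < n ∧ n ≤ N + H ∧ Exceptional N A c C (f.eval (n : ℤ))}.ncard : ℝ) ≤
        H * (N : ℝ) ^ (-(c / A ^ 2)) := by
    intro k B e hk he0 he1
    obtain ⟨c, C, hc, ⟨N₀, hN₀⟩, -⟩ := Pool.Agent.H45.PU.finalU k B hk e he0 he1.le
    refine ⟨c, C, hc, N₀, fun N hN A hA hAN f hirr hdeg hlc hlcB hcoef H hH1 hH2 => ?_⟩
    refine hN₀ N hN A hA hAN f ⟨hirr, hdeg, hlc, ?_, ?_⟩ H hH1 hH2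
    · exact_mod_cast hlcB
    · intro j hj
      rw [le_div_iff₀ (by positivity)]
      have h1 := hcoef j hj
      have h2 : ((4 * (k + 1) * |f.coeff j| : ℤ) : ℝ) ≤
          ((f.leadingCoeff * (N : ℤ) ^ (k - j) : ℤ) : ℝ) := by exact_mod_cast h1
      push_cast at h2
      linarith
  refine ⟨h1, ?_, ?_⟩
  · intro B e he0 he1
    obtain ⟨c, C₁, hc, N₀, h⟩ := h1 1 B e odd_one he0 he1
    refine ⟨c, C₁, hc, N₀ + 8, fun N hN A hA hAN q a hq hqB ha hcop H hH1 hH2 => ?_⟩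
    have hq0 : (q : ℤ) ≠ 0 := by exact_mod_cast (by omega : q ≠ 0)
    have hdeg : (C (q : ℤ) * X + C (a : ℤ) : ℤ[X]).natDegree = 1 := natDegree_linear hq0
    have hlc : (C (q : ℤ) * X + C (a : ℤ) : ℤ[X]).leadingCoeff = q := leadingCoeff_linear hq0
    have hprim : (C (q : ℤ) * X + C (a : ℤ) : ℤ[X]).IsPrimitive := by
      intro r hr
      rw [C_dvd_iff_dvd_coeff] at hr
      have h4 := hr 0
      have h5 := hr 1
      simp only [coeff_add, coeff_C_mul, coeff_X_zero, mul_zero, coeff_C_zero, zero_add] at h4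
      simp only [coeff_add, coeff_C_mul, coeff_X_one, mul_one, coeff_C_succ, add_zero] at h5
      have h6 : IsCoprime (a : ℤ) (q : ℤ) := Nat.isCoprime_iff_coprime.2 hcop
      exact h6.isUnit_of_dvd' h4 h5
    have hirr : Irreducible (C (q : ℤ) * X + C (a : ℤ) : ℤ[X]) := by
      rw [IsPrimitive.Int.irreducible_iff_irreducible_map_cast hprim]
      apply irreducible_of_degree_eq_one
      rw [degree_map_eq_of_injective Int.cast_injective]
      exact degree_linear hq0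
    have h4 := h N (by omega) A hA hAN (C (q : ℤ) * X + C (a : ℤ)) hirr hdeg
      (by rw [hlc]; omega)
      (by rw [hlc]; exact_mod_cast hqB)
      (by
        intro j hj
        have hj0 : j = 0 := by omega
        subst hj0
        rw [hlc]
        simp only [coeff_add, coeff_C_mul, coeff_X_zero, mul_zero, coeff_C_zero, zero_add,
          Nat.sub_zero, pow_one, Nat.cast_one, Nat.abs_cast]
        have h5 : 8 * a ≤ q * N := by nlinarith
        have h6 : (8 : ℤ) * a ≤ q * N := by exact_mod_cast h5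
        linarith) H hH1 hH2
    have hset : {n : ℕ | N < n ∧ n ≤ N + H ∧
        Exceptional N A c C₁ ((C (q : ℤ) * X + C (a : ℤ) : ℤ[X]).eval (n : ℤ))} =
        {n : ℕ | N < n ∧ n ≤ N + H ∧ Exceptional N A c C₁ ((a + q * n : ℕ) : ℤ)} := by
      ext n
      have h5 : (C (q : ℤ) * X + C (a : ℤ) : ℤ[X]).eval (n : ℤ) = ((a + q * n : ℕ) : ℤ) := by
        simp only [eval_add, eval_mul, eval_C, eval_X]
        push_cast
        ring
      rw [Set.mem_ofPred_eq, Set.mem_ofPred_eq, h5]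
    rw [hset] at h4
    exact h4
  · intro k e hk he0 he1
    obtain ⟨c, C, hc, -, hone⟩ := Pool.Agent.H45.PU.finalU k 1 hk e he0 he1.le
    refine ⟨c, C, hc, fun f hirr hdeg hlc => ?_⟩
    obtain ⟨M, hM⟩ : ∃ M : ℕ, ∀ j ≤ k, |f.coeff j| ≤ M := by
      refine ⟨∑ i ∈ Finset.range (k + 1), (f.coeff i).natAbs, fun j hj => ?_⟩
      have h1 : (f.coeff j).natAbs ≤ ∑ i ∈ Finset.range (k + 1), (f.coeff i).natAbs :=
        Finset.single_le_sum (f := fun i => (f.coeff i).natAbs) (fun _ _ => Nat.zero_le _)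
          (Finset.mem_range.2 (by omega))
      rw [Int.abs_eq_natAbs]
      exact_mod_cast h1
    refine hone f (4 * (k + 1) * M + 1) fun N hN => ⟨hirr, hdeg, hlc, ?_, ?_⟩
    · have hMN : 4 * (k + 1) * M ≤ N := by omega
      have hMN' : (4 : ℝ) * (k + 1) * M ≤ N := by exact_mod_cast hMN
      have h4 := hM k le_rfl
      rw [← hdeg, coeff_natDegree, abs_of_pos (by omega)] at h4
      have h4' : (f.leadingCoeff : ℝ) ≤ M := by exact_mod_cast h4
      have h6 : (0 : ℝ) ≤ M := Nat.cast_nonneg M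
      have h7 : (0 : ℝ) ≤ k := Nat.cast_nonneg k
      have h8 : (M : ℝ) ≤ 4 * (k + 1) * M := by nlinarith
      rw [pow_one]
      linarith
    · intro j hj
      rw [le_div_iff₀ (by positivity)]
      have hMN : 4 * (k + 1) * M ≤ N := by omega
      have hMN' : (4 : ℝ) * (k + 1) * M ≤ N := by exact_mod_cast hMN
      have h4 := hM j hj.le
      have h4' : |(f.coeff j : ℝ)| ≤ M := by exact_mod_cast h4
      have hlc' : (1 : ℝ) ≤ f.leadingCoeff := by exact_mod_cast hlc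
      have hN1 : (1 : ℝ) ≤ N := by
        have : 1 ≤ N := by omega
        exact_mod_cast this
      have h5 : (N : ℝ) ≤ (N : ℝ) ^ (k - j) := le_self_pow₀ hN1 (by omega)
      have h7 : (0 : ℝ) ≤ k := Nat.cast_nonneg k
      have h8 : |(f.coeff j : ℝ)| * (4 * (k + 1)) ≤ M * (4 * (k + 1)) :=
        mul_le_mul_of_nonneg_right h4' (by positivity)
      have h9 : (N : ℝ) ^ (k - j) ≤ f.leadingCoeff * (N : ℝ) ^ (k - j) :=
        le_mul_of_one_le_left (by positivity) hlc'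
      linarith

end Pool.Agent.Results.MP_321647_nt.UniformSaving
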